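import Pool.Agent.Helper99.AB.Stmts
import Pool.Agent.Helper99.AA.Stmts

set_option autoImplicit false

/-! Row CH of project AB: many close pairs of primes. -/

open Finset
open scoped BigOperators

namespace Pool.Agent.Helper99.AB

/-- `log M ≤ sqrt M` -/
theorem ch_log_le_sqrt (M : ℝ) (hM : 0 < M) : Real.log M ≤ Real.sqrt M := by
  have h1 : 0 < Real.sqrt M := Real.sqrt_pos.mpr hM
  have h2 : 0 < Real.sqrt (Real.sqrt M) := Real.sqrt_pos.mpr h1
  have h3 : Real.log M = 2 * Real.log (Real.sqrt M) := by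
    rw [Real.log_sqrt hM.le]; ring
  have h4 : Real.log (Real.sqrt M) = 2 * Real.log (Real.sqrt (Real.sqrt M)) := by
    rw [Real.log_sqrt h1.le]; ring
  have h5 := Real.log_le_sub_one_of_pos h2
  have h6 : Real.sqrt (Real.sqrt M) ^ 2 = Real.sqrt M := Real.sq_sqrt h1.le
  nlinarith [sq_nonneg (Real.sqrt (Real.sqrt M) - 2)]

/-- CH: many close pairs of primes. -/
theorem st_CH (hPI : Pool.Agent.Helper99.AA.ST_PI) : ST_CH := by
  refine ⟨1 / 32, by norm_num, ?_⟩
  intro κ hκ hκ1
  obtain ⟨x₀, hx₀⟩ := hPI 1 one_pos le_rfl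
  refine ⟨max (max x₀ 3) ((8 / κ) ^ 2), ?_⟩
  intro M hM
  have hMx : x₀ ≤ M := le_trans (le_trans (le_max_left _ _) (le_max_left _ _)) hM
  have hM3 : (3 : ℝ) ≤ M := le_trans (le_trans (le_max_right _ _) (le_max_left _ _)) hM
  have hMκ : (8 / κ) ^ 2 ≤ M := le_trans (le_max_right _ _) hM
  have hM0 : 0 < M := by linarith
  have hlog : 0 < Real.log M := Real.log_pos (by linarith)
  have hs0 : 0 < Real.sqrt M := Real.sqrt_pos.mpr hM0
  have hss : Real.sqrt M * Real.sqrt M = M := Real.mul_self_sqrt hM0.le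
  have hsκ : 8 / κ ≤ Real.sqrt M := by
    apply Real.le_sqrt_of_sq_le hMκ
  have hsκ' : 8 ≤ κ * Real.sqrt M := by
    have := (div_le_iff₀ hκ).mp hsκ
    linarith
  have hLe0 : 0 < Le κ M := by unfold Le; positivity
  have hLeM : Le κ M ≤ M := by
    unfold Le
    have h1 := ch_log_le_sqrt M hM0
    have h2 : κ * Real.sqrt M ≤ Real.sqrt M := by nlinarith
    calc κ * Real.sqrt M * Real.log M ≤ Real.sqrt M * Real.sqrt M :=
          mul_le_mul h2 h1 hlog.le hs0.le
      _ = M := hss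
  -- the primes
  set Q : Finset ℕ := Pool.Agent.Helper40.MR.PrI M ((1 + 1) * M) with hQ
  have hQcard : M / (2 * Real.log M) ≤ (Q.card : ℝ) := by
    have := hx₀ M hMx
    rwa [one_mul] at this
  have hQmem : ∀ p ∈ Q, M < (p : ℝ) ∧ (p : ℝ) ≤ 2 * M ∧ p.Prime := by
    intro p hp
    rw [hQ] at hp
    unfold Pool.Agent.Helper40.MR.PrI Pool.Agent.Helper40.MR.IocN at hp
    rw [Finset.mem_filter, Finset.mem_Ioc] at hp
    obtain ⟨⟨h1, h2⟩, h3⟩ := hp
    refine ⟨(Nat.floor_lt hM0.le).mp h1, ?_, h3⟩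
    have h4 := (Nat.le_floor_iff (by positivity)).mp h2
    linarith
  have hQPM : ∀ p ∈ Q, p ∈ PM M := by
    intro p hp
    obtain ⟨h1, h2, h3⟩ := hQmem p hp
    unfold PM
    rw [Finset.mem_filter, Finset.mem_Ioc]
    refine ⟨⟨(Nat.floor_lt hM0.le).mpr h1, (Nat.le_floor_iff (by positivity)).mpr (by linarith)⟩,
      h3⟩
  -- blocks
  set f : ℕ → ℕ := fun p => ⌊((p : ℝ) - M) / Le κ M⌋₊ with hf
  set B : Finset ℕ := Finset.range (⌊M / Le κ M⌋₊ + 1) with hB
  have hBcard : (B.card : ℝ) ≤ 2 * M / Le κ M := by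
    rw [hB, Finset.card_range]
    push_cast
    have h1 : ((⌊M / Le κ M⌋₊ : ℕ) : ℝ) ≤ M / Le κ M := Nat.floor_le (by positivity)
    have h2 : 1 ≤ M / Le κ M := by rwa [one_le_div hLe0]
    have h3 : 2 * M / Le κ M = M / Le κ M + M / Le κ M := by ring
    linarith
  have hmaps : Set.MapsTo f (Q : Set ℕ) (B : Set ℕ) := by
    intro p hp
    rw [Finset.mem_coe] at hp ⊢
    obtain ⟨h1, h2, h3⟩ := hQmem p hp
    rw [hB, Finset.mem_range, Nat.lt_succ_iff]
    apply Nat.floor_le_floor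
    apply div_le_div_of_nonneg_right _ hLe0.le
    linarith
  set E : Finset (ℕ × ℕ) := (Q ×ˢ Q).filter (fun r => f r.1 = f r.2) with hE
  have hsum : (Q.card : ℝ) = ∑ b ∈ B, ((Q.filter (fun p => f p = b)).card : ℝ) := by
    have h1 := Finset.card_eq_sum_card_fiberwise hmaps
    rw [h1]
    push_cast
    rfl
  have hEsum : (E.card : ℝ) = ∑ b ∈ B, ((Q.filter (fun p => f p = b)).card : ℝ) ^ 2 := by
    have h1 : E.card = ∑ b ∈ B, (E.filter (fun r => f r.1 = b)).card := by
      apply Finset.card_eq_sum_card_fiberwise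
      intro r hr
      rw [Finset.mem_coe, hE, Finset.mem_filter, Finset.mem_product] at hr
      exact hmaps (Finset.mem_coe.mpr hr.1.1)
    rw [h1]
    push_cast
    apply Finset.sum_congr rfl
    intro b _
    have h2 : E.filter (fun r => f r.1 = b) =
        (Q.filter (fun p => f p = b)) ×ˢ (Q.filter (fun p => f p = b)) := by
      ext r
      rw [Finset.mem_filter, hE, Finset.mem_filter, Finset.mem_product, Finset.mem_product,
        Finset.mem_filter, Finset.mem_filter]
      constructor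
      · rintro ⟨⟨⟨h3, h4⟩, h5⟩, h6⟩
        exact ⟨⟨h3, h6⟩, ⟨h4, h5.symm.trans h6⟩⟩
      · rintro ⟨⟨h3, h6⟩, ⟨h4, h5⟩⟩
        exact ⟨⟨⟨h3, h4⟩, h6.trans h5.symm⟩, h6⟩
    rw [h2, Finset.card_product]
    push_cast
    ring
  have hCS : (Q.card : ℝ) ^ 2 ≤ (B.card : ℝ) * E.card := by
    rw [hsum, hEsum]
    exact sq_sum_le_card_mul_sum_sq
  -- two elements of a block are close
  have hclose : ∀ p q : ℕ, p ∈ Q → q ∈ Q → f p = f q → (q : ℝ) ≤ p + Le κ M := by
    intro p q hp hq hpq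
    have hp1 := (hQmem p hp).1
    have hq1 := (hQmem q hq).1
    have h0 : 0 ≤ ((p : ℝ) - M) / Le κ M := div_nonneg (by linarith) hLe0.le
    have h1 : ((f p : ℕ) : ℝ) ≤ ((p : ℝ) - M) / Le κ M := Nat.floor_le h0
    have h2 : ((q : ℝ) - M) / Le κ M < (f q : ℕ) + 1 := Nat.lt_floor_add_one _
    rw [← hpq] at h2
    have h3 : ((q : ℝ) - M) / Le κ M < ((p : ℝ) - M) / Le κ M + 1 := by linarith
    have h4 : ((p : ℝ) - M) / Le κ M + 1 = ((p : ℝ) - M + Le κ M) / Le κ M := by
      field_simp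
    rw [h4, div_lt_div_iff_of_pos_right hLe0] at h3
    linarith
  have hEle : E.card ≤ Q.card + (CP κ M).card + (CP κ M).card := by
    have hsub : E ⊆ (Q.image (fun p => (p, p)) ∪ CP κ M) ∪ (CP κ M).image Prod.swap := by
      intro r hr
      rw [hE, Finset.mem_filter, Finset.mem_product] at hr
      obtain ⟨⟨h1, h2⟩, h3⟩ := hr
      rw [Finset.mem_union, Finset.mem_union]
      rcases lt_trichotomy r.1 r.2 with h | h | h
      · left; right
        unfold CP
        rw [Finset.mem_filter, Finset.mem_product]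
        exact ⟨⟨hQPM _ h1, hQPM _ h2⟩, h, hclose r.1 r.2 h1 h2 h3⟩
      · left; left
        rw [Finset.mem_image]
        exact ⟨r.1, h1, Prod.ext rfl h⟩
      · right
        rw [Finset.mem_image]
        refine ⟨(r.2, r.1), ?_, rfl⟩
        unfold CP
        rw [Finset.mem_filter, Finset.mem_product]
        exact ⟨⟨hQPM _ h2, hQPM _ h1⟩, h, hclose r.2 r.1 h2 h1 h3.symm⟩
    refine (Finset.card_le_card hsub).trans ?_
    refine (Finset.card_union_le _ _).trans ?_
    refine add_le_add ((Finset.card_union_le _ _).trans ?_) Finset.card_image_le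
    exact add_le_add_left Finset.card_image_le _
  have hEle' : (E.card : ℝ) ≤ Q.card + 2 * (CP κ M).card := by
    have : (E.card : ℝ) ≤ Q.card + (CP κ M).card + (CP κ M).card := by exact_mod_cast hEle
    linarith
  -- final computation
  set n : ℝ := (Q.card : ℝ) with hn
  have hn0 : 0 < n := lt_of_lt_of_le (by positivity) hQcard
  have h1 : n ^ 2 ≤ (2 * M / Le κ M) * (n + 2 * (CP κ M).card) := by
    refine hCS.trans ?_
    apply mul_le_mul hBcard hEle' (by positivity) (by positivity)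
  have h2 : n ^ 2 * Le κ M ≤ 2 * M * (n + 2 * (CP κ M).card) := by
    have h3 : (2 * M / Le κ M) * (n + 2 * (CP κ M).card) * Le κ M =
        2 * M * (n + 2 * (CP κ M).card) := by
      field_simp
    calc n ^ 2 * Le κ M ≤ (2 * M / Le κ M) * (n + 2 * (CP κ M).card) * Le κ M :=
          mul_le_mul_of_nonneg_right h1 hLe0.le
      _ = _ := h3
  have h3 : 4 * M ≤ n * Le κ M := by
    have h4 : M / (2 * Real.log M) * Le κ M ≤ n * Le κ M :=
      mul_le_mul_of_nonneg_right hQcard hLe0.le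
    have h5 : M / (2 * Real.log M) * Le κ M = M * (κ * Real.sqrt M) / 2 := by
      unfold Le
      field_simp
    rw [h5] at h4
    nlinarith
  have h4 : n ^ 2 * Le κ M ≤ 8 * M * (CP κ M).card := by
    have h5 : 4 * M * n ≤ n * Le κ M * n := mul_le_mul_of_nonneg_right h3 hn0.le
    nlinarith
  have h5 : (M / (2 * Real.log M)) ^ 2 * Le κ M ≤ n ^ 2 * Le κ M := by
    apply mul_le_mul_of_nonneg_right _ hLe0.le
    exact pow_le_pow_left₀ (by positivity) hQcard 2
  have h6 : (M / (2 * Real.log M)) ^ 2 * Le κ M = 8 * M * (1 / 32 * Qm κ M) := by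
    unfold Le Qm
    field_simp
    ring
  have h7 : 8 * M * (1 / 32 * Qm κ M) ≤ 8 * M * (CP κ M).card := by
    rw [← h6]
    exact h5.trans h4
  exact le_of_mul_le_mul_left h7 (by positivity)

end Pool.Agent.Helper99.AB
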